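import Pool.Agent.Helper22.SL.Defs

/-!
# T5, block SL: S1 (invariant of the targets) and S2 (number of targets)
-/

namespace Pool.Agent.Helper33.SL

open Finset Pool.Agent.Helper27.T4 Pool.Agent.Helper29.T4 Pool.Agent.Helper22.HW
  Pool.Agent.Helper22.SL

variable {κ : Type*} {Mk : κ → ℕ} {P : Pr κ} {I : ℕ} {X Ir : ℕ → ℕ}

/-- the target depends only on the label and on the levels above -/
theorem TT_congr (X : ℕ → ℕ) (d d' : Dt) (r : ℕ) (h1 : d.1 = d'.1)
    (h2 : ∀ t < r, d.2 t = d'.2 t) : TT X d r = TT X d' r := by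
  induction r with
  | zero => simp only [TT, h1]
  | succ r ih =>
    simp only [TT]
    rw [ih (fun t ht => h2 t (Nat.lt_succ_of_lt ht)), h2 r (Nat.lt_succ_self r)]

theorem F'_dvd_F'0 [DecidableEq κ] (hP : P.Ok Mk) {r : ℕ} (hr : r ≤ P.h) : P.F' r ∣ P.F' 0 := by
  induction r with
  | zero => exact dvd_rfl
  | succ r ih => exact (hP.F'F' r (by omega)).trans (ih (by omega))

theorem F_dvd_F0 [DecidableEq κ] (hP : P.Ok Mk) {r : ℕ} (hr : r ≤ P.h) : P.F r ∣ P.F 0 := by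
  induction r with
  | zero => exact dvd_rfl
  | succ r ih => exact (hP.FF r (by omega)).trans (ih (by omega))

theorem F_pos [DecidableEq κ] (hP : P.Ok Mk) {r : ℕ} (hr : r ≤ P.h) : 0 < P.F r :=
  Nat.pos_of_dvd_of_pos (F_dvd_F0 hP hr) hP.posF

theorem F'_pos [DecidableEq κ] (hP : P.Ok Mk) {r : ℕ} (hr : r ≤ P.h) : 0 < P.F' r :=
  Nat.pos_of_dvd_of_pos (F'_dvd_F'0 hP hr) (by rw [← hP.com]; exact hP.posF)

theorem Q_pos [DecidableEq κ] (hP : P.Ok Mk) (r : ℕ) : 0 < P.Q r := NN_pos (hP.prime r) _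

theorem L_pos [DecidableEq κ] (hP : P.Ok Mk) (r : ℕ) : 0 < P.L r := by
  unfold Pr.L
  exact Nat.mul_pos hP.posL (Finset.prod_pos (fun t _ => Q_pos hP t))

theorem L_zero (P : Pr κ) : P.L 0 = P.L0 := by
  unfold Pr.L
  simp

/-- S1 -/
theorem CC_inv [DecidableEq κ] (hP : P.Ok Mk) (hT : Tg P I X Ir) (w : κ → ℕ) {r : ℕ}
    (hr : r ≤ P.h) {d : Dt} (hd : d ∈ CC P w I X r) :
    d.1 < I ∧ TT X d r ∈ AP P X r d.1 := by
  classical
  induction r generalizing d with
  | zero =>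
    rw [CC, Finset.mem_image] at hd
    obtain ⟨i, hi, rfl⟩ := hd
    rw [Finset.mem_range] at hi
    refine ⟨hi, ?_⟩
    rw [AP, Finset.mem_filter, Finset.mem_range]
    simp only [TT]
    refine ⟨Nat.lt_succ_self _, ?_, trivial, ?_⟩
    · rw [L_zero]
      exact hT.dvd i hi
    · have h1 := F_pos hP hr
      have h2 := L_pos hP 0
      have h3 : 0 < P.F 0 * P.L 0 := Nat.mul_pos h1 h2
      omega
  | succ r ih =>
    rw [CC, Finset.mem_image] at hd
    obtain ⟨q, hq, rfl⟩ := hd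
    rw [Finset.mem_filter, Finset.mem_product] at hq
    obtain ⟨⟨hq1, -⟩, hL⟩ := hq
    obtain ⟨h1, h2⟩ := ih (by omega) hq1
    refine ⟨h1, ?_⟩
    have e1 : TT X ((q.1.1, Function.update q.1.2 r q.2) : Dt) r = TT X q.1 r := by
      refine TT_congr X _ _ r rfl (fun t ht => ?_)
      exact Function.update_of_ne (by omega) _ _
    have e2 : TT X ((q.1.1, Function.update q.1.2 r q.2) : Dt) (r + 1) =
        TT X q.1 r - (q.2.2.1 + q.2.2.2) := by
      simp only [TT]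
      rw [e1, Function.update_self]
    rw [e2]
    change TT X q.1 r - (q.2.2.1 + q.2.2.2) ∈ AP P X (r + 1) q.1.1
    rw [AP, Finset.mem_filter, Finset.mem_range] at h2 ⊢
    obtain ⟨a1, a2, a3, a4⟩ := h2
    have hle := hL.le
    have hFF : P.F' (r + 1) ≤ P.F (r + 1) := Nat.le_of_dvd (F_pos hP hr) (hP.F'F (r + 1) hr)
    have hsz := hP.size r (by omega)
    have hlt := hL.lt
    have hlt' : q.2.2.2 < P.F (r + 1) * P.L (r + 1) :=
      lt_of_lt_of_le hL.lt' (Nat.mul_le_mul_right _ hFF)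
    refine ⟨by omega, hL.tdvd, ?_, by omega⟩
    have b1 : P.F' (r + 1) ∣ q.2.2.1 :=
      ((hP.F'F (r + 1) hr).trans (Dvd.intro _ rfl)).trans hL.dvd
    have b2 : P.F' (r + 1) ∣ q.2.2.2 := (Dvd.intro _ rfl).trans hL.dvd'
    have b3 : P.F' (r + 1) ∣ q.2.2.1 + q.2.2.2 := Dvd.dvd.add b1 b2
    have b4 : TT X q.1 r ≡ X q.1.1 [MOD P.F' (r + 1)] :=
      Nat.ModEq.of_dvd (hP.F'F' r (by omega)) a3
    have b5 : TT X q.1 r - (q.2.2.1 + q.2.2.2) ≡ TT X q.1 r [MOD P.F' (r + 1)] := by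
      have c1 : (TT X q.1 r - (q.2.2.1 + q.2.2.2)) + (q.2.2.1 + q.2.2.2) = TT X q.1 r :=
        Nat.sub_add_cancel hle
      have c2 : (TT X q.1 r - (q.2.2.1 + q.2.2.2)) + (q.2.2.1 + q.2.2.2) ≡
          (TT X q.1 r - (q.2.2.1 + q.2.2.2)) + 0 [MOD P.F' (r + 1)] :=
        Nat.ModEq.add_left _ ((Nat.modEq_zero_iff_dvd).2 b3)
      rw [c1, Nat.add_zero] at c2
      exact c2.symm
    exact b5.trans b4

/-- the number of targets -/
theorem card_AP_le [DecidableEq κ] (hP : P.Ok Mk) {r : ℕ} (hr : r ≤ P.h) (i : ℕ) :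
    ((AP P X r i).card : ℝ) ≤ 5 * ((P.F r : ℝ) / P.F' r) := by
  have hF := F_pos hP hr
  have hF' := F'_pos hP hr
  have hL := L_pos hP r
  obtain ⟨k, hk⟩ := hP.F'F r hr
  have hcop : (P.F' r).Coprime (P.L r) := by
    have h1 := hP.copL r hr
    rw [hP.com] at h1
    exact (Nat.Coprime.coprime_dvd_right (F'_dvd_F'0 hP hr) h1).symm
  have h1 : (AP P X r i).card ≤ 4 * (P.F r * P.L r) / (P.F' r * P.L r) + 1 := by
    refine card_class_le (P.F' r * P.L r) (X i + 1 - 4 * (P.F r * P.L r))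
      (4 * (P.F r * P.L r)) _ ?_ ?_
    · intro c hc
      rw [AP, Finset.mem_filter, Finset.mem_range] at hc
      omega
    · intro c hc c' hc'
      rw [AP, Finset.mem_filter, Finset.mem_range] at hc hc'
      rw [← Nat.modEq_and_modEq_iff_modEq_mul hcop]
      refine ⟨?_, ?_⟩
      · exact (show c % P.F' r = c' % P.F' r from hc.2.2.1.trans hc'.2.2.1.symm)
      · have d1 : P.L r ∣ c := (Dvd.intro_left _ rfl).trans hc.2.1
        have d2 : P.L r ∣ c' := (Dvd.intro_left _ rfl).trans hc'.2.1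
        exact ((Nat.modEq_zero_iff_dvd).2 d1).trans ((Nat.modEq_zero_iff_dvd).2 d2).symm
  have h2 : 4 * (P.F r * P.L r) / (P.F' r * P.L r) = 4 * k := by
    rw [hk]
    have : 4 * (P.F' r * k * P.L r) = (P.F' r * P.L r) * (4 * k) := by ring
    rw [this]
    exact Nat.mul_div_cancel_left _ (Nat.mul_pos hF' hL)
  rw [h2] at h1
  have hk1 : 1 ≤ k := by
    rcases Nat.eq_zero_or_pos k with h0 | h0
    · rw [h0, Nat.mul_zero] at hk
      omega
    · exact h0
  have h3 : (P.F r : ℝ) / P.F' r = k := by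
    rw [hk]
    push_cast
    have : (P.F' r : ℝ) ≠ 0 := by exact_mod_cast hF'.ne'
    field_simp
  rw [h3]
  have h4 : (AP P X r i).card ≤ 5 * k := by omega
  exact_mod_cast h4

/-- S2 -/
theorem card_AP [DecidableEq κ] (hP : P.Ok Mk) {r : ℕ} (hr : r < P.h) (i : ℕ) :
    ((AP P X r i).card : ℝ) * P.pc r ≤ 10 := by
  have h1 := card_AP_le (X := X) hP hr.le i
  have hF : (0 : ℝ) < P.F r := by exact_mod_cast F_pos hP hr.le
  have hF' : (0 : ℝ) < P.F' r := by exact_mod_cast F'_pos hP hr.le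
  cases r with
  | zero =>
    simp only [Pr.pc, mul_one]
    have : (P.F 0 : ℝ) / P.F' 0 = 1 := by
      rw [← hP.com]
      exact div_self hF.ne'
    rw [this] at h1
    linarith
  | succ r =>
    simp only [Pr.pc]
    have hq : (0 : ℝ) < P.q r 2 := by
      exact_mod_cast pow_pos (hP.prime r 2).pos _
    have hmid : (P.F (r + 1) : ℝ) ≤ P.F' (r + 1) * P.q r 2 := by
      exact_mod_cast hP.mid r hr
    have hpc : (0 : ℝ) ≤ (P.F' (r + 1) : ℝ) / P.F (r + 1) + 1 / (P.q r 2 : ℝ) := by positivity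
    calc ((AP P X (r + 1) i).card : ℝ) * ((P.F' (r + 1) : ℝ) / P.F (r + 1) + 1 / (P.q r 2 : ℝ))
        ≤ 5 * ((P.F (r + 1) : ℝ) / P.F' (r + 1)) *
          ((P.F' (r + 1) : ℝ) / P.F (r + 1) + 1 / (P.q r 2 : ℝ)) :=
          mul_le_mul_of_nonneg_right h1 hpc
      _ = 5 + 5 * ((P.F (r + 1) : ℝ) / (P.F' (r + 1) * P.q r 2)) := by
          field_simp
      _ ≤ 5 + 5 * 1 := by
          have : (P.F (r + 1) : ℝ) / (P.F' (r + 1) * P.q r 2) ≤ 1 := by
            rw [div_le_one (by positivity)]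
            exact hmid
          linarith
      _ = 10 := by norm_num

end Pool.Agent.Helper33.SL
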